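import Mathlib
import Pool.Agent.H.MP_4b7d36_an.D

set_option autoImplicit false

namespace Pool.Agent.Results.MP_4b7d36_an.Curse

open Pool.Agent.H.MP_4b7d36_an

theorem result : ∃ C : ℝ, 1 < C ∧ ∃ ε₀ : ℝ, 0 < ε₀ ∧ ε₀ < 1 ∧ ∀ᶠ d : ℕ in Filter.atTop,
    ∀ ε : ℝ, 0 < ε → ε < ε₀ → ∀ N : ℕ, opt N d ≤ ε / 2 ^ d → C ^ d ≤ N := by
  obtain ⟨C, hC, ε₀, h0, h1, H⟩ := final
  exact ⟨C, hC, ε₀, h0, h1, H.mono fun d hd ε _ => hd ε⟩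

end Pool.Agent.Results.MP_4b7d36_an.Curse
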